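import Mathlib

set_option autoImplicit false

/-!
# Graphs without 4-cycles and with large chromatic number (Descartes' construction)
-/

namespace Pool.Agent.Q271.RN

open Finset

/-- no (not necessarily induced) 4-cycle -/
def CFour {V : Type*} (G : SimpleGraph V) : Prop :=
  ∀ a b c d : V, a ≠ c → b ≠ d → G.Adj a b → G.Adj b c → G.Adj c d → G.Adj d a → False

/-- the construction: `S = Fin m`, one copy of `G` for each set in `P`, matched to the set. -/
def stp {V : Type} (G : SimpleGraph V) (m : ℕ) (P : Type) (e : P → V → Fin m) :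
    SimpleGraph (Fin m ⊕ P × V) where
  Adj x y := match x, y with
    | Sum.inl _, Sum.inl _ => False
    | Sum.inl s, Sum.inr (T, v) => s = e T v
    | Sum.inr (T, v), Sum.inl s => s = e T v
    | Sum.inr (T, v), Sum.inr (T', v') => T = T' ∧ G.Adj v v'
  symm := ⟨by
    rintro (s | ⟨T, v⟩) (s' | ⟨T', v'⟩) h
    · exact h
    · exact h
    · exact h
    · exact ⟨h.1.symm, h.2.symm⟩⟩
  loopless := ⟨by
    rintro (s | ⟨T, v⟩) h
    · exact h
    · exact G.loopless.irrefl v h.2⟩

lemma stp_cfour {V : Type} (G : SimpleGraph V) (m : ℕ) (P : Type) (e : P → V → Fin m)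
    (he : ∀ T, Function.Injective (e T)) (hG : CFour G) : CFour (stp G m P e) := by
  rintro (a | ⟨A, a⟩) (b | ⟨B, b⟩) (c | ⟨C, c⟩) (d | ⟨D, d⟩) hac hbd h1 h2 h3 h4
  · exact h1
  · exact h1
  · exact h1
  · exact h1
  · exact h3
  · -- a, c in S, b, d in copies
    have e1 : a = e B b := h1
    have e2 : c = e B b := h2
    exact hac (by rw [e1, e2])
  · exact h4
  · -- a in S, b c d in copies
    have e1 : a = e B b := h1
    obtain ⟨e2, e2'⟩ : B = C ∧ G.Adj b c := h2
    obtain ⟨e3, e3'⟩ : C = D ∧ G.Adj c d := h3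
    have e4 : a = e D d := h4
    subst e2
    subst e3
    exact hbd (by rw [he B (e1.symm.trans e4)])
  · exact h2
  · exact h2
  · -- b and d in S, a and c in copies
    have e1 : b = e A a := h1
    have e2 : b = e C c := h2
    have e3 : d = e C c := h3
    exact hbd (by rw [e2, e3])
  · -- b in S
    have e1 : b = e A a := h1
    have e2 : b = e C c := h2
    obtain ⟨e3, e3'⟩ : C = D ∧ G.Adj c d := h3
    obtain ⟨e4, e4'⟩ : D = A ∧ G.Adj d a := h4
    subst e3
    subst e4
    exact hac (by rw [he C (e1.symm.trans e2)])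
  · exact h3
  · -- c in S
    obtain ⟨e1, e1'⟩ : A = B ∧ G.Adj a b := h1
    have e2 : c = e B b := h2
    have e3 : c = e D d := h3
    obtain ⟨e4, e4'⟩ : D = A ∧ G.Adj d a := h4
    subst e1
    subst e4
    exact hbd (by rw [he D (e2.symm.trans e3)])
  · -- d in S
    obtain ⟨e1, e1'⟩ : A = B ∧ G.Adj a b := h1
    obtain ⟨e2, e2'⟩ : B = C ∧ G.Adj b c := h2
    have e3 : d = e C c := h3
    have e4 : d = e A a := h4
    subst e1
    subst e2
    exact hac (by rw [he A (e4.symm.trans e3)])
  · obtain ⟨e1, e1'⟩ : A = B ∧ G.Adj a b := h1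
    obtain ⟨e2, e2'⟩ : B = C ∧ G.Adj b c := h2
    obtain ⟨e3, e3'⟩ : C = D ∧ G.Adj c d := h3
    obtain ⟨e4, e4'⟩ : D = A ∧ G.Adj d a := h4
    subst e1
    subst e2
    subst e3
    refine hG a b c d (fun h => hac (by rw [h])) (fun h => hbd (by rw [h])) e1' e2' e3' e4'

theorem exists_cfour (k : ℕ) : ∃ (V : Type) (_ : Fintype V) (G : SimpleGraph V),
    CFour G ∧ ¬ G.Colorable k := by
  classical
  induction k with
  | zero =>
    refine ⟨Unit, inferInstance, ⊥, fun a b c d _ _ h _ _ _ => h, ?_⟩
    rintro ⟨f⟩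
    exact (f ()).elim0
  | succ k ih =>
    obtain ⟨V, hV, G, hG, hk⟩ := ih
    set n := Fintype.card V with hn
    set m := (k + 1) * n + 1 with hm
    let P : Type := {T : Finset (Fin m) // T.card = n}
    have hex : ∀ T : P, ∃ f : V → Fin m, Function.Injective f ∧ ∀ v, f v ∈ T.1 := by
      intro T
      have hc : Fintype.card V = Fintype.card {x // x ∈ T.1} := by
        rw [Fintype.card_coe, T.2]
      let e : V ≃ {x // x ∈ T.1} := Fintype.equivOfCardEq hc
      exact ⟨fun v => (e v).1, fun a b h => e.injective (Subtype.ext h), fun v => (e v).2⟩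
    choose e he1 he2 using hex
    refine ⟨Fin m ⊕ P × V, inferInstance, stp G m P e, stp_cfour G m P e he1 hG, ?_⟩
    rintro ⟨f⟩
    -- a colour class of `S` with at least `n` elements
    have hpig : ∃ a : Fin (k + 1), n ≤ (univ.filter (fun s : Fin m => f (Sum.inl s) = a)).card := by
      by_contra hcon
      push Not at hcon
      have h1 : (univ : Finset (Fin m)).card =
          ∑ a : Fin (k + 1), (univ.filter (fun s : Fin m => f (Sum.inl s) = a)).card :=
        card_eq_sum_card_fiberwise (f := fun s => f (Sum.inl s)) (t := univ)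
          (fun _ _ => mem_univ _)
      have h2 : ∑ a : Fin (k + 1), (univ.filter (fun s : Fin m => f (Sum.inl s) = a)).card ≤
          ∑ _a : Fin (k + 1), n := sum_le_sum fun a _ => (hcon a).le
      rw [← h1] at h2
      simp only [card_univ, Fintype.card_fin, sum_const, smul_eq_mul] at h2
      omega
    obtain ⟨a, ha⟩ := hpig
    obtain ⟨T, hT1, hT2⟩ := exists_subset_card_eq ha
    let T' : P := ⟨T, hT2⟩
    -- the copy over `T` avoids the colour `a`
    have hav : ∀ v : V, f (Sum.inr (T', v)) ≠ a := by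
      intro v hv
      have h1 : e T' v ∈ T := he2 T' v
      have h2 := (mem_filter.mp (hT1 h1)).2
      have h3 : (stp G m P e).Adj (Sum.inl (e T' v)) (Sum.inr (T', v)) := rfl
      exact f.valid h3 (h2.trans hv.symm)
    apply hk
    -- recolour
    have hcard : Fintype.card {b : Fin (k + 1) // b ≠ a} = k := by
      rw [Fintype.card_subtype_compl]
      simp
    let g : {b : Fin (k + 1) // b ≠ a} ≃ Fin k := Fintype.equivFinOfCardEq hcard
    refine ⟨SimpleGraph.Coloring.mk (fun v => g ⟨f (Sum.inr (T', v)), hav v⟩) ?_⟩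
    intro v w hvw h
    have h1 := g.injective h
    have h2 : f (Sum.inr (T', v)) = f (Sum.inr (T', w)) := congrArg Subtype.val h1
    have h3 : (stp G m P e).Adj (Sum.inr (T', v)) (Sum.inr (T', w)) := ⟨rfl, hvw⟩
    exact f.valid h3 h2

/-- a 4-cycle free graph with chromatic number exactly `N + 1` -/
theorem exists_exact (N : ℕ) : ∃ (V : Type) (_ : Fintype V) (G : SimpleGraph V),
    CFour G ∧ G.Colorable (N + 1) ∧ ¬ G.Colorable N := by
  classical
  obtain ⟨V, hV, G, hG, hk⟩ := exists_cfour N
  have hex : ∃ m, G.Colorable m := ⟨_, G.colorable_of_fintype⟩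
  set m := Nat.find hex with hm
  have hcol : G.Colorable m := Nat.find_spec hex
  have hmN : N + 1 ≤ m := by
    by_contra hlt
    exact hk (hcol.mono (by omega))
  obtain ⟨f⟩ := hcol
  let s : Set V := {v | (f v).val < N + 1}
  refine ⟨s, inferInstance, G.induce s, ?_, ?_, ?_⟩
  · intro a b c d hac hbd h1 h2 h3 h4
    exact hG a b c d (fun h => hac (Subtype.ext h)) (fun h => hbd (Subtype.ext h)) h1 h2 h3 h4
  · refine ⟨SimpleGraph.Coloring.mk (fun v => ⟨(f v.1).val, v.2⟩) ?_⟩
    intro v w hvw h
    have h1 : (f v.1).val = (f w.1).val := congrArg (fun x : Fin (N + 1) => x.val) h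
    exact f.valid hvw (Fin.ext h1)
  · rintro ⟨g⟩
    have hN : ∀ v : V, (if h : v ∈ s then (g ⟨v, h⟩).val else (f v).val - 1) < m - 1 := by
      intro v
      split_ifs with h
      · have := (g ⟨v, h⟩).isLt
        omega
      · have h1 : N + 1 ≤ (f v).val := not_lt.mp h
        have := (f v).isLt
        omega
    have : G.Colorable (m - 1) := by
      refine ⟨SimpleGraph.Coloring.mk (fun v => ⟨_, hN v⟩) ?_⟩
      intro v w hvw h
      have h0 : (if h : v ∈ s then (g ⟨v, h⟩).val else (f v).val - 1) =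
          (if h : w ∈ s then (g ⟨w, h⟩).val else (f w).val - 1) := congrArg Fin.val h
      split_ifs at h0 with h1 h2 h2
      · have hadj : (G.induce s).Adj ⟨v, h1⟩ ⟨w, h2⟩ := hvw
        exact g.valid hadj (Fin.ext h0)
      · have h3 : N + 1 ≤ (f w).val := not_lt.mp h2
        have := (g ⟨v, h1⟩).isLt
        omega
      · have h3 : N + 1 ≤ (f v).val := not_lt.mp h1
        have := (g ⟨w, h2⟩).isLt
        omega
      · have h3 : N + 1 ≤ (f v).val := not_lt.mp h1
        have h4 : N + 1 ≤ (f w).val := not_lt.mp h2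
        exact f.valid hvw (Fin.ext (by omega))
    have h1 := Nat.find_min' hex this
    omega

end Pool.Agent.Q271.RN
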