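import Pool.Agent.Q271.RN.Desc

set_option autoImplicit false

/-!
# A Ramsey-nice question for oriented graphs
-/

namespace Pool.Agent.Q271.RN

open Finset

/-- An oriented graph: no loops, at most one arc between two vertices. -/
structure OG (V : Type) where
  arc : V → V → Prop
  asymm : ∀ u v, arc u v → ¬ arc v u

/-- The underlying undirected graph. -/
def OG.under {V : Type} (D : OG V) : SimpleGraph V where
  Adj u v := D.arc u v ∨ D.arc v u
  symm := ⟨fun _ _ h => h.symm⟩
  loopless := ⟨fun v h => by rcases h with h | h <;> exact D.asymm v v h h⟩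

/-- A tournament. -/
def OG.IsTournament {V : Type} (D : OG V) : Prop := ∀ u v, u ≠ v → D.arc u v ∨ D.arc v u

/-- The relation `r` (a set of arcs on `V`) contains a copy of the oriented graph `F`. -/
def HasCopy {W V : Type} (F : OG W) (r : V → V → Prop) : Prop :=
  ∃ φ : W → V, Function.Injective φ ∧ ∀ a b, F.arc a b → r (φ a) (φ b)

/-- The `k`-colouring `c` of the arcs of `D` is `𝓕`-good. -/
def Good {V : Type} {k : ℕ} (𝓕 : Set (Σ n : ℕ, OG (Fin n))) (D : OG V)
    (c : V → V → Fin k) : Prop :=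
  ∀ i : Fin k, ∀ F ∈ 𝓕, ¬ HasCopy F.2 (fun u v => D.arc u v ∧ c u v = i)

/-- `p_k(𝓕)`: the supremum of the orders of the tournaments with an `𝓕`-good `k`-colouring. -/
noncomputable def pk (𝓕 : Set (Σ n : ℕ, OG (Fin n))) (k : ℕ) : ℕ∞ :=
  ⨆ (V : Type) (_ : Fintype V) (D : OG V)
    (_ : D.IsTournament ∧ ∃ c : V → V → Fin k, Good 𝓕 D c), (Fintype.card V : ℕ∞)

/-- `q_k(𝓕)`: the supremum of the chromatic numbers of the finite oriented graphs with an
`𝓕`-good `k`-colouring. -/
noncomputable def qk (𝓕 : Set (Σ n : ℕ, OG (Fin n))) (k : ℕ) : ℕ∞ :=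
  ⨆ (V : Type) (_ : Fintype V) (D : OG V) (_ : ∃ c : V → V → Fin k, Good 𝓕 D c),
    D.under.chromaticNumber

/-- the directed path with two arcs -/
def P3 : OG (Fin 3) where
  arc a b := (a = 0 ∧ b = 1) ∨ (a = 1 ∧ b = 2)
  asymm := by decide

/-- the complete bipartite graph `K_{2,2}`, all arcs from the first side to the second -/
def K22 : OG (Fin 4) where
  arc a b := (a = 0 ∨ a = 1) ∧ (b = 2 ∨ b = 3)
  asymm := by decide

/-- the family -/
def fam : Set (Σ n : ℕ, OG (Fin n)) := {⟨3, P3⟩, ⟨4, K22⟩}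

lemma fam_finite : fam.Finite := by
  unfold fam
  exact Set.toFinite _

lemma P3_acyclic : P3.under.IsAcyclic := by
  have h0 : (⊥ : SimpleGraph (Fin 3)).IsAcyclic := SimpleGraph.isAcyclic_bot
  have h1 : ¬ (⊥ : SimpleGraph (Fin 3)).Reachable 0 1 := by
    rintro ⟨p⟩
    cases p with
    | cons h _ => exact h
  have h2 := h0.sup_edge_of_not_reachable h1
  have h3 : ¬ ((⊥ : SimpleGraph (Fin 3)) ⊔ SimpleGraph.edge 0 1).Reachable 2 1 := by
    rintro ⟨p⟩
    cases p with
    | @cons _ v _ h _ =>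
      rcases h with h | h
      · exact h
      · rw [SimpleGraph.edge_adj] at h
        revert h
        revert v
        intro v _ h
        rcases h.1 with ⟨h, -⟩ | ⟨h, -⟩ <;> exact absurd h (by decide)
  have h4 := h2.sup_edge_of_not_reachable h3
  refine h4.anti ?_
  intro a b hab
  have key : ∀ a b : Fin 3, ((a = 0 ∧ b = 1) ∨ (a = 1 ∧ b = 2)) ∨
      ((b = 0 ∧ a = 1) ∨ (b = 1 ∧ a = 2)) → ((a = 0 ∧ b = 1 ∨ a = 1 ∧ b = 0) ∧ a ≠ b) ∨
        ((a = 2 ∧ b = 1 ∨ a = 1 ∧ b = 2) ∧ a ≠ b) := by decide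
  rcases key a b hab with h | h
  · left; right
    rw [SimpleGraph.edge_adj]
    exact h
  · right
    rw [SimpleGraph.edge_adj]
    exact h

/-! ### Tournaments -/

section tour

variable {V : Type} [Fintype V] {k : ℕ}

open Classical in
/-- out-neighbourhood of `v` in colour `i` -/
noncomputable def outN (D : OG V) (c : V → V → Fin k) (i : Fin k) (v : V) : Finset V :=
  univ.filter (fun x => D.arc v x ∧ c v x = i)

lemma mem_outN {D : OG V} {c : V → V → Fin k} {i : Fin k} {v x : V} :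
    x ∈ outN D c i v ↔ D.arc v x ∧ c v x = i := by
  simp [outN]

/-- the number of arcs of a tournament -/
lemma sum_out (D : OG V) (hD : D.IsTournament) (c : V → V → Fin k) :
    2 * ∑ p : Fin k × V, (outN D c p.1 p.2).card =
      Fintype.card V * (Fintype.card V - 1) := by
  classical
  -- all arcs
  let A : Finset (V × V) := univ.filter (fun e => D.arc e.1 e.2)
  let B : Finset (V × V) := univ.filter (fun e => D.arc e.2 e.1)
  have hAB : A.card = B.card := by
    refine card_bij (fun e _ => (e.2, e.1)) ?_ ?_ ?_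
    · intro e he
      simpa [A, B] using he
    · intro e _ e' _ h
      simp only [Prod.mk.injEq] at h
      exact Prod.ext h.2 h.1
    · intro e he
      refine ⟨(e.2, e.1), ?_, rfl⟩
      simpa [A, B] using he
  have hdis : Disjoint A B := by
    rw [disjoint_left]
    intro e h1 h2
    exact D.asymm _ _ (mem_filter.mp h1).2 (mem_filter.mp h2).2
  have hun : A ∪ B = (univ : Finset V).offDiag := by
    ext ⟨u, v⟩
    simp only [A, B, mem_union, mem_filter, mem_univ, true_and, mem_offDiag]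
    constructor
    · rintro (h | h) he
      · rw [he] at h; exact D.asymm _ _ h h
      · rw [he] at h; exact D.asymm _ _ h h
    · intro h
      exact hD u v h
  have h1 : A.card + B.card = Fintype.card V * (Fintype.card V - 1) := by
    rw [← card_union_of_disjoint hdis, hun, offDiag_card, card_univ, Nat.mul_sub, mul_one]
  have h2 : ∑ p : Fin k × V, (outN D c p.1 p.2).card = A.card := by
    have e : A = (univ : Finset (Fin k × V)).biUnion
        (fun p => (outN D c p.1 p.2).image (fun x => (p.2, x))) := by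
      ext ⟨u, v⟩
      simp only [A, mem_filter, mem_univ, true_and, mem_biUnion, mem_image, Prod.mk.injEq,
        Prod.exists]
      constructor
      · intro h
        exact ⟨c u v, u, v, mem_outN.mpr ⟨h, rfl⟩, rfl, rfl⟩
      · rintro ⟨i, w, x, hx, rfl, rfl⟩
        exact (mem_outN.mp hx).1
    rw [e, card_biUnion]
    · refine sum_congr rfl fun p _ => ?_
      rw [card_image_of_injective _ (fun a b h => by simpa using h)]
    · rintro ⟨i, u⟩ _ ⟨j, v⟩ _ hne
      rw [Function.onFun, disjoint_left]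
      rintro ⟨a, b⟩ h1 h2
      simp only [mem_image, Prod.mk.injEq] at h1 h2
      obtain ⟨x, hx, rfl, rfl⟩ := h1
      obtain ⟨y, hy, rfl, rfl⟩ := h2
      apply hne
      rw [← (mem_outN.mp hx).2, ← (mem_outN.mp hy).2]
  rw [h2]
  omega

/-- counting out-cherries -/
lemma sum_cherry (D : OG V) (c : V → V → Fin k) (hc : Good fam D c) :
    ∑ p : Fin k × V, ((outN D c p.1 p.2).card * (outN D c p.1 p.2).card -
      (outN D c p.1 p.2).card) ≤ k * (Fintype.card V * (Fintype.card V - 1)) := by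
  classical
  have h1 : ∑ p : Fin k × V, ((outN D c p.1 p.2).card * (outN D c p.1 p.2).card -
      (outN D c p.1 p.2).card) =
      ((univ : Finset (Fin k × V)).sigma (fun p => (outN D c p.1 p.2).offDiag)).card := by
    rw [card_sigma]
    refine sum_congr rfl fun p _ => ?_
    rw [offDiag_card]
  have h2 : k * (Fintype.card V * (Fintype.card V - 1)) =
      ((univ : Finset (Fin k)) ×ˢ (univ : Finset V).offDiag).card := by
    rw [card_product, offDiag_card, card_univ, card_univ, Fintype.card_fin, Nat.mul_sub, mul_one]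
  rw [h1, h2]
  refine card_le_card_of_injOn (fun q => (q.1.1, q.2)) ?_ ?_
  · rintro ⟨⟨i, v⟩, ⟨x, y⟩⟩ hq
    simp only [coe_sigma, Set.mem_sigma_iff, mem_coe, mem_offDiag] at hq
    simp only [mem_coe, mem_product, mem_univ, mem_offDiag, true_and]
    exact hq.2.2.2
  · rintro ⟨⟨i, v⟩, ⟨x, y⟩⟩ hq ⟨⟨i', v'⟩, ⟨x', y'⟩⟩ hq' h
    simp only [coe_sigma, Set.mem_sigma_iff, mem_coe, mem_offDiag] at hq hq'
    simp only [Prod.mk.injEq] at h
    obtain ⟨rfl, rfl, rfl⟩ := h
    obtain ⟨-, a1, a2, a3⟩ := hq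
    obtain ⟨-, b1, b2, -⟩ := hq'
    rw [mem_outN] at a1 a2 b1 b2
    by_contra hne
    have hvv : v ≠ v' := by
      rintro rfl
      exact hne rfl
    refine hc i ⟨4, K22⟩ (by simp [fam]) ⟨![v, v', x, y], ?_, ?_⟩
    · have n1 : v ≠ x := by rintro rfl; exact D.asymm _ _ a1.1 a1.1
      have n2 : v ≠ y := by rintro rfl; exact D.asymm _ _ a2.1 a2.1
      have n3 : v' ≠ x := by rintro rfl; exact D.asymm _ _ b1.1 b1.1
      have n4 : v' ≠ y := by rintro rfl; exact D.asymm _ _ b2.1 b2.1
      intro s t hst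
      fin_cases s <;> fin_cases t <;> simp_all
    · intro s t hst
      obtain ⟨hs, ht⟩ := hst
      rcases hs with rfl | rfl <;> rcases ht with rfl | rfl
      · exact a1
      · exact a2
      · exact b1
      · exact b2

lemma card_le (D : OG V) (hD : D.IsTournament) (c : V → V → Fin k) (hc : Good fam D c) :
    Fintype.card V ≤ 4 * k ^ 2 + 2 * k + 1 := by
  classical
  by_contra hlt
  push Not at hlt
  set n := Fintype.card V with hn
  have h1 := sum_out D hD c
  have h2 := sum_cherry D c hc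
  obtain ⟨m, hm⟩ : ∃ m, n = m + 1 := ⟨n - 1, by omega⟩
  rw [← hn] at h1 h2
  have hm1 : n - 1 = m := by omega
  rw [hm1] at h1 h2
  -- pass to the integers
  have h3 : ∑ p : Fin k × V, (((outN D c p.1 p.2).card : ℤ) ^ 2 - ((outN D c p.1 p.2).card : ℤ)) ≤
      k * (n * m) := by
    have : ∀ p : Fin k × V, (((outN D c p.1 p.2).card : ℤ) ^ 2 -
        ((outN D c p.1 p.2).card : ℤ)) = (((outN D c p.1 p.2).card * (outN D c p.1 p.2).card -
        (outN D c p.1 p.2).card : ℕ) : ℤ) := by
      intro p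
      rw [Nat.cast_sub (Nat.le_mul_self _)]
      push_cast
      ring
    rw [sum_congr rfl (fun p _ => this p), ← Nat.cast_sum]
    exact_mod_cast h2
  have h4 : 2 * ∑ p : Fin k × V, ((outN D c p.1 p.2).card : ℤ) = n * m := by
    rw [← Nat.cast_sum]
    exact_mod_cast h1
  have h5 : 0 ≤ ∑ p : Fin k × V, (((outN D c p.1 p.2).card : ℤ) - (2 * k + 1)) ^ 2 :=
    sum_nonneg fun p _ => sq_nonneg _
  have h6 : ∑ p : Fin k × V, (((outN D c p.1 p.2).card : ℤ) - (2 * k + 1)) ^ 2 =
      ∑ p : Fin k × V, (((outN D c p.1 p.2).card : ℤ) ^ 2 - ((outN D c p.1 p.2).card : ℤ)) -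
      (4 * k + 1) * ∑ p : Fin k × V, ((outN D c p.1 p.2).card : ℤ) +
      (k * n) * (2 * k + 1) ^ 2 := by
    rw [mul_sum, ← sum_sub_distrib]
    have : ((k : ℤ) * n) * (2 * k + 1) ^ 2 = ∑ _p : Fin k × V, (2 * (k : ℤ) + 1) ^ 2 := by
      rw [sum_const, card_univ, Fintype.card_prod, Fintype.card_fin, nsmul_eq_mul]
      push_cast
      ring
    rw [this, ← sum_add_distrib]
    refine sum_congr rfl fun p _ => ?_
    ring
  rw [h6] at h5
  have h7 : (4 * (k : ℤ) ^ 2 + 2 * k) + 1 ≤ m := by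
    have : 4 * k ^ 2 + 2 * k + 1 ≤ m := by omega
    exact_mod_cast this
  have h8 : (0 : ℤ) < n := by
    have : 0 < n := by omega
    exact_mod_cast this
  have hk0 : (0 : ℤ) ≤ k := by positivity
  -- 0 ≤ k n m - (4k+1) n m / 2 + k n (2k+1)^2
  have h9 : 0 ≤ (n : ℤ) * (2 * k * m - (4 * k + 1) * m + 2 * k * (2 * k + 1) ^ 2) := by
    have h10 : 2 * ((4 * (k : ℤ) + 1) * ∑ p : Fin k × V, ((outN D c p.1 p.2).card : ℤ)) =
        (4 * k + 1) * (n * m) := by rw [← h4]; ring
    nlinarith
  have h10 : 0 ≤ 2 * (k : ℤ) * m - (4 * k + 1) * m + 2 * k * (2 * k + 1) ^ 2 :=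
    nonneg_of_mul_nonneg_right h9 h8
  nlinarith

end tour

/-! ### The lower bound for `q_k` -/

/-- lexicographic comparison with witness `i` -/
def lexAt {k : ℕ} (a b : Fin k → Bool) (i : Fin k) : Prop :=
  (∀ j, j < i → a j = b j) ∧ a i = false ∧ b i = true

lemma lexAt_asymm {k : ℕ} {a b : Fin k → Bool} {i j : Fin k} (h : lexAt a b i)
    (h' : lexAt b a j) : False := by
  rcases lt_trichotomy i j with hij | hij | hij
  · have := h'.1 i hij
    rw [h.2.1, h.2.2] at this
    exact absurd this (by decide)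
  · subst hij
    have e1 := h.2.1
    have e2 := h'.2.2
    rw [e1] at e2
    exact absurd e2 (by decide)
  · have := h.1 j hij
    rw [h'.2.1, h'.2.2] at this
    exact absurd this (by decide)

lemma exists_lexAt {k : ℕ} {a b : Fin k → Bool} (h : a ≠ b) :
    (∃ i, lexAt a b i) ∨ ∃ i, lexAt b a i := by
  classical
  have hne : (univ.filter (fun i => a i ≠ b i)).Nonempty := by
    obtain ⟨i, hi⟩ := Function.ne_iff.mp h
    exact ⟨i, by simpa using hi⟩
  set i := (univ.filter (fun i => a i ≠ b i)).min' hne with hi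
  have hmem : a i ≠ b i := by
    have := min'_mem _ hne
    rw [← hi] at this
    exact (mem_filter.mp this).2
  have hlt : ∀ j, j < i → a j = b j := by
    intro j hj
    by_contra hne'
    have := min'_le (univ.filter (fun i => a i ≠ b i)) j (by simpa using hne')
    rw [← hi] at this
    exact absurd hj (not_lt.mpr this)
  cases ha : a i with
  | false =>
    left
    refine ⟨i, hlt, ha, ?_⟩
    cases hb : b i with
    | false => exact absurd (ha.trans hb.symm) hmem
    | true => rfl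
  | true =>
    right
    refine ⟨i, fun j hj => (hlt j hj).symm, ?_, ha⟩
    cases hb : b i with
    | false => rfl
    | true => exact absurd (ha.trans hb.symm) hmem

lemma two_pow_le (k : ℕ) (hk : 1 ≤ k) : ((2 ^ k : ℕ) : ℕ∞) ≤ qk fam k := by
  classical
  obtain ⟨V, hV, G, hG, hcol, hnot⟩ := exists_exact (2 ^ k - 1)
  have hpos : 1 ≤ 2 ^ k := Nat.one_le_two_pow
  rw [Nat.sub_add_cancel hpos] at hcol
  obtain ⟨f0⟩ := hcol
  let e : Fin (2 ^ k) ≃ (Fin k → Bool) := (Fintype.equivFinOfCardEq (by simp)).symm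
  let f : V → (Fin k → Bool) := fun v => e (f0 v)
  have hf : ∀ u v, G.Adj u v → f u ≠ f v := fun u v h he => f0.valid h (e.injective he)
  let D : OG V :=
    { arc := fun u v => G.Adj u v ∧ ∃ i, lexAt (f u) (f v) i
      asymm := by
        rintro u v ⟨-, i, hi⟩ ⟨-, j, hj⟩
        exact lexAt_asymm hi hj }
  have : NeZero k := ⟨by omega⟩
  let c : V → V → Fin k := fun u v => if h : ∃ i, lexAt (f u) (f v) i then h.choose else 0
  have hc : ∀ {u v i}, D.arc u v ∧ c u v = i → f u i = false ∧ f v i = true := by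
    rintro u v i ⟨⟨-, h⟩, hi⟩
    have h1 : c u v = h.choose := dif_pos h
    rw [h1] at hi
    have h2 := h.choose_spec
    rw [hi] at h2
    exact h2.2
  have hgood : Good fam D c := by
    rintro i F hF ⟨φ, hφ, hF2⟩
    rcases hF with rfl | rfl
    · have h1 := hc (hF2 (0 : Fin 3) (1 : Fin 3) (Or.inl ⟨rfl, rfl⟩))
      have h2 := hc (hF2 (1 : Fin 3) (2 : Fin 3) (Or.inr ⟨rfl, rfl⟩))
      rw [h1.2] at h2
      exact absurd h2.1 (by decide)
    · have h02 := (hF2 (0 : Fin 4) (2 : Fin 4) ⟨Or.inl rfl, Or.inl rfl⟩).1.1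
      have h12 := (hF2 (1 : Fin 4) (2 : Fin 4) ⟨Or.inr rfl, Or.inl rfl⟩).1.1
      have h13 := (hF2 (1 : Fin 4) (3 : Fin 4) ⟨Or.inr rfl, Or.inr rfl⟩).1.1
      have h03 := (hF2 (0 : Fin 4) (3 : Fin 4) ⟨Or.inl rfl, Or.inr rfl⟩).1.1
      refine hG _ _ _ _ ?_ ?_ h02 h12.symm h13 h03.symm
      · intro h
        exact absurd (hφ h) (by decide)
      · intro h
        exact absurd (hφ h) (by decide)
  have hunder : D.under = G := by
    ext u v
    constructor
    · rintro (h | h)
      · exact h.1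
      · exact h.1.symm
    · intro h
      rcases exists_lexAt (hf u v h) with h1 | h1
      · exact Or.inl ⟨h, h1⟩
      · exact Or.inr ⟨h.symm, h1⟩
  have hchr : ((2 ^ k : ℕ) : ℕ∞) ≤ G.chromaticNumber := by
    by_contra hlt
    push Not at hlt
    apply hnot
    obtain ⟨n, hn⟩ := ENat.ne_top_iff_exists.mp hlt.ne_top
    have h1 : G.Colorable n := SimpleGraph.chromaticNumber_le_iff_colorable.mp (by rw [← hn])
    rw [← hn] at hlt
    have h2 : n < 2 ^ k := by exact_mod_cast hlt
    exact h1.mono (by omega)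
  rw [← hunder] at hchr
  refine hchr.trans ?_
  unfold qk
  exact le_iSup_of_le V (le_iSup_of_le hV (le_iSup_of_le D (le_iSup_of_le ⟨c, hgood⟩ le_rfl)))

lemma pk_le (k : ℕ) : pk fam k ≤ ((4 * k ^ 2 + 2 * k + 1 : ℕ) : ℕ∞) := by
  unfold pk
  refine iSup_le fun V => iSup_le fun hV => iSup_le fun D => iSup_le fun h => ?_
  obtain ⟨h1, c, h2⟩ := h
  exact_mod_cast card_le D h1 c h2

lemma growth (k : ℕ) (hk : 9 ≤ k) : 4 * k ^ 2 + 2 * k + 1 < 2 ^ k := by
  induction k, hk using Nat.le_induction with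
  | base => norm_num
  | succ k hk ih =>
    have h : 2 ^ (k + 1) = 2 ^ k * 2 := pow_succ 2 k
    nlinarith

theorem main : ∃ 𝓕 : Set (Σ n : ℕ, OG (Fin n)), 𝓕.Finite ∧ (∃ F ∈ 𝓕, F.2.under.IsAcyclic) ∧
    {k : ℕ | 1 ≤ k ∧ pk 𝓕 k = qk 𝓕 k}.Finite := by
  refine ⟨fam, fam_finite, ⟨⟨3, P3⟩, by simp [fam], P3_acyclic⟩, ?_⟩
  refine (Set.finite_lt_nat 9).subset ?_
  rintro k ⟨hk1, hk⟩
  by_contra hlt
  have hlt' : 9 ≤ k := not_lt.mp hlt
  have h1 := two_pow_le k hk1
  rw [← hk] at h1
  have h2 := h1.trans (pk_le k)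
  have h3 : 2 ^ k ≤ 4 * k ^ 2 + 2 * k + 1 := by exact_mod_cast h2
  have := growth k hlt'
  omega

end Pool.Agent.Q271.RN
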